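import Mathlib

/-!
# IGP, alternating version: basic definitions

Common definitions for the project: for every finite group `G` the commutator subgroup of
`G ≀ S_m` is a Galois group over the rationals for infinitely many `m`.
-/

set_option autoImplicit false

open Polynomial

namespace Pool.Agent.Helper74_ALT

/-! ## Polynomials over the rationals, covering polynomials -/

/-- Evaluation of a rational polynomial in a field of characteristic zero. -/
noncomputable def pv (p : ℚ[X]) {L : Type} [Field L] [CharZero L] (x : L) : L :=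
  p.eval₂ (Rat.castHom L) x

/-- The antiderivative without constant term. -/
noncomputable def intq (P : ℚ[X]) : ℚ[X] :=
  ∑ i ∈ Finset.range (P.natDegree + 1), monomial (i + 1) (P.coeff i / ((i : ℚ) + 1))

/-- `p` is monic of prime degree `n`, `p' = n (∏ (X - a i))²`, the critical values are pairwise
different and nonzero. All ramification of `p(x) = Y` over finite `Y` is then given by 3-cycles. -/
structure CoverPoly {l : ℕ} (n : ℕ) (p : ℚ[X]) (a : Fin l → ℚ) : Prop where
  prime : n.Prime
  lpos : 1 ≤ l
  monic : p.Monic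
  deg : p.natDegree = n
  der : derivative p = C (n : ℚ) * (∏ i, (X - C (a i))) ^ 2
  inj : Function.Injective (fun i => p.eval (a i))
  ne0 : ∀ i, p.eval (a i) ≠ 0

/-- `y` is transcendental over the field `F`, embedded by `g`. -/
def TrOver {F L : Type} [Field F] [Field L] (g : F →+* L) (y : L) : Prop :=
  Function.Injective (eval₂RingHom g y)

/-- `N` is the field generated over `F` by `k` different roots `x i` of `p(X) = Y`, with `Y`
transcendental over `F`, together with its universal property. -/
structure IsKR (p : ℚ[X]) {k : ℕ} {F N : Type} [Field F] [CharZero F] [Field N] [CharZero N]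
    (i : F →+* N) (x : Fin k → N) (Y : N) : Prop where
  inj : Function.Injective x
  eq : ∀ j, pv p (x j) = Y
  tr : TrOver i Y
  gen : Subfield.closure (Set.range i ∪ Set.range x) = ⊤
  univ : ∀ (L : Type) [Field L] [CharZero L] (g : F →+* L) (r : Fin k → L) (y : L),
    Function.Injective r → (∀ j, pv p (r j) = y) → TrOver g y →
    ∃ φ : N →+* L, φ.comp i = g ∧ ∀ j, φ (x j) = r j

/-- The ring of rational polynomials in the `x i`. -/
def BB {k : ℕ} {N : Type} [Field N] [CharZero N] (x : Fin k → N) : Subring N :=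
  Subring.closure (Set.range (fun q : ℚ => (q : N)) ∪ Set.range x)

/-- `da / dY = b`. -/
def IsDer {N : Type} [Field N] (Y a b : N) : Prop :=
  ∀ (L : Type) [Field L] [CharZero L] (D : Derivation ℤ L L) (φ : N →+* L),
    D (φ a) = φ b * D (φ Y)

/-- The pole order of `z` at infinity is at most `δ` times the one of the `x i`. -/
def DegLe {k : ℕ} {N : Type} [Field N] (x : Fin k → N) (z : N) (δ : ℕ) : Prop :=
  ∀ (Λ : Type) [Field Λ] [CharZero Λ] (ψ : N →+* LaurentSeries Λ) (v : ℕ), 0 < v →
    (∀ i, (ψ (x i)).order = -(v : ℤ)) → -((δ * v : ℕ) : ℤ) ≤ (ψ z).order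

open Classical in
/-- The automorphism of `N` permuting the `x i` by `π` (junk value if it does not exist). -/
noncomputable def autE {k : ℕ} {N : Type} [Field N] (x : Fin k → N)
    (π : Equiv.Perm (Fin k)) : N →+* N :=
  if h : ∃ e : N →+* N, ∀ i, e (x i) = x (π i) then h.choose else RingHom.id N

/-- The covering with its free action of the finite group `G`. -/
structure Setup (G : Type) [Group G] where
  l : ℕ
  n : ℕ
  k : ℕ
  p : ℚ[X]
  a : Fin l → ℚ
  N : Type
  [fN : Field N]
  [cN : CharZero N]
  x : Fin k → N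
  Y : N
  ρ : G →* Equiv.Perm (Fin k)
  cp : CoverPoly n p a
  kr : IsKR p (Rat.castHom N) x Y
  hkn : k + 3 ≤ n
  hkG : k = 6 * Nat.card G
  free : ∀ g i, ρ g i = i → g = 1

attribute [instance] Setup.fN Setup.cN

section

variable {G : Type} [Group G] (S : Setup G)

/-- The right action of `G` on the homomorphisms out of `N`. -/
noncomputable def Setup.act {L : Type} [Field L] (φ : S.N →+* L) (g : G) : S.N →+* L :=
  φ.comp (autE S.x (S.ρ g))

/-- A family of functions `f` on the covering with `df = s² dY`. -/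
structure Fam where
  s0 : S.N
  F00 : S.N
  F0 : Fin 3 → S.N
  R : ℚ[X]
  nn : ℚ[X]
  inv_s0 : ∀ g, autE S.x (S.ρ g) s0 = s0
  inv_F00 : ∀ g, autE S.x (S.ρ g) F00 = F00
  inv_F0 : ∀ g j, autE S.x (S.ρ g) (F0 j) = F0 j
  mem_s0 : ∃ z ∈ BB S.x, s0 = S.Y * z
  mem_F00 : ∃ z ∈ BB S.x, F00 = S.Y * z
  mem_F0 : ∀ j, ∃ z ∈ BB S.x, F0 j = S.Y * z
  der_F00 : IsDer S.Y F00 (s0 ^ 2)
  der_F0 : ∀ j, IsDer S.Y (F0 j) (S.Y ^ (j : ℕ) * pv R S.Y * s0)
  prim : ∀ (L : Type) [Field L] [CharZero L] (φ₁ φ₂ : S.N →+* L), φ₁ S.Y = φ₂ S.Y →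
    φ₁ s0 = φ₂ s0 → ∃ g, φ₂ = S.act φ₁ g
  ne_s0 : s0 ≠ 0
  ne_nn : nn ≠ 0
  nn_mem : ∃ z ∈ BB S.x, s0 * z = pv nn S.Y
  ne_R : R ≠ 0
  dvd_R : nn ^ 2 * (X * ∏ i, (X - C (S.p.eval (S.a i)))) ∣ R
  deg_F00 : DegLe S.x F00 (S.n * (2 * R.natDegree + 5) - 1)
  deg_F0 : ∀ j, DegLe S.x (F0 j) (S.n * (2 * R.natDegree + 5) - 1)

end

section

variable {G : Type} [Group G] {S : Setup G}

/-- The square root of `df / dY`. -/
noncomputable def Fam.sv (F : Fam S) {L : Type} [Field L] [CharZero L] (φ : S.N →+* L)
    (c : Fin 3 → L) : L :=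
  φ F.s0 + (∑ j, c j * (φ S.Y) ^ (j : ℕ)) * pv F.R (φ S.Y)

/-- The function `f` of the family with parameters `c`, at the point `φ`. -/
noncomputable def Fam.fv (F : Fam S) {L : Type} [Field L] [CharZero L] (φ : S.N →+* L)
    (c : Fin 3 → L) : L :=
  φ F.F00 + 2 * ∑ j, c j * φ (F.F0 j) +
    ∑ i : Fin 3, ∑ j : Fin 3, c i * c j * pv (intq (X ^ ((i : ℕ) + (j : ℕ)) * F.R ^ 2)) (φ S.Y)

end

/-! ## The base fields -/

/-- The field of parameters. -/
abbrev KK : Type := FractionRing (MvPolynomial (Fin 3) ℚ)

/-- The base field `KK(t)`. -/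
abbrev EE : Type := FractionRing KK[X]

/-- The algebraic closure of the field of parameters. -/
abbrev LL : Type := AlgebraicClosure KK

/-- The embedding of the constants. -/
noncomputable def kE : KK →+* EE := (algebraMap KK[X] EE).comp C

/-- The parameters. -/
noncomputable def cK (i : Fin 3) : KK := algebraMap (MvPolynomial (Fin 3) ℚ) KK (MvPolynomial.X i)

/-- The parameters in `EE`. -/
noncomputable def cE (i : Fin 3) : EE := kE (cK i)

/-- The variable `t`. -/
noncomputable def tE : EE := algebraMap KK[X] EE X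

section

variable {G : Type} [Group G] {S : Setup G}

/-- The points: homomorphisms `φ : N → L` with `f(φ) = t`; `L` is an extension of `EE` by `jE`. -/
def Fam.IsPt (F : Fam S) {L : Type} [Field L] [CharZero L] (jE : EE →+* L)
    (φ : S.N →+* L) : Prop :=
  F.fv φ (fun i => jE (cE i)) = jE tE

/-- The type of points. -/
def Fam.Pts (F : Fam S) (L : Type) [Field L] [CharZero L] [Algebra EE L] : Type :=
  {φ : S.N →+* L // F.IsPt (algebraMap EE L) φ}

/-- `L` is the finite Galois extension of `EE` generated by all points. -/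
structure Fam.Split (F : Fam S) (L : Type) [Field L] [CharZero L] [Algebra EE L] : Prop where
  fd : FiniteDimensional EE L
  gal : IsGalois EE L
  full : ∀ (Ω : Type) [Field Ω] [CharZero Ω] (J : L →+* Ω) (ψ : S.N →+* Ω),
    F.IsPt (J.comp (algebraMap EE L)) ψ → ∃ φ : S.N →+* L, ψ = J.comp φ
  gen : ∀ σ : L ≃ₐ[EE] L, (∀ φ : S.N →+* L, F.IsPt (algebraMap EE L) φ →
    ((σ : L ≃ₐ[EE] L) : L →+* L).comp φ = φ) → σ = 1

end

/-! ## Laurent series -/

section laurent

variable {Λ : Type} [Field Λ]

/-- The map `X ↦ ζ X` on Laurent series. -/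
noncomputable def sclFun (ζ : Λˣ) (f : LaurentSeries Λ) : LaurentSeries Λ :=
  ⟨fun m => ((ζ ^ m : Λˣ) : Λ) * f.coeff m, f.isPWO_support'.mono fun m hm => by
    rw [Function.mem_support] at hm ⊢
    exact right_ne_zero_of_mul hm⟩

theorem coeff_sclFun (ζ : Λˣ) (f : LaurentSeries Λ) (m : ℤ) :
    (sclFun ζ f).coeff m = ((ζ ^ m : Λˣ) : Λ) * f.coeff m := rfl

theorem support_sclFun (ζ : Λˣ) (f : LaurentSeries Λ) : (sclFun ζ f).support = f.support := by
  ext m
  rw [HahnSeries.mem_support, HahnSeries.mem_support, coeff_sclFun, mul_ne_zero_iff]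
  exact and_iff_right (ζ ^ m).ne_zero

/-- The automorphism `X ↦ ζ X` of the field of Laurent series. -/
noncomputable def scl (ζ : Λˣ) : LaurentSeries Λ →+* LaurentSeries Λ where
  toFun f := sclFun ζ f
  map_one' := by
    ext m
    rw [coeff_sclFun, HahnSeries.coeff_one]
    split_ifs with h
    · rw [h]; simp
    · simp
  map_mul' f g := by
    ext m
    rw [coeff_sclFun, HahnSeries.coeff_mul, HahnSeries.coeff_mul, Finset.mul_sum]
    refine Finset.sum_congr ?_ fun ij hij => ?_
    · ext ij
      simp only [Finset.mem_antidiagonal, support_sclFun]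
    · rw [Finset.mem_antidiagonal] at hij
      rw [coeff_sclFun, coeff_sclFun, ← hij.2.2, zpow_add, Units.val_mul]
      ring
  map_zero' := by
    ext m
    rw [coeff_sclFun]; simp
  map_add' f g := by
    ext m
    rw [coeff_sclFun, HahnSeries.coeff_add, HahnSeries.coeff_add, coeff_sclFun, coeff_sclFun,
      mul_add]

theorem coeff_scl (ζ : Λˣ) (f : LaurentSeries Λ) (m : ℤ) :
    (scl ζ f).coeff m = ((ζ ^ m : Λˣ) : Λ) * f.coeff m := rfl

/-- The embedding `X ↦ X ^ M` (`M` positive) of the field of Laurent series. -/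
noncomputable def powX (M : ℕ) (hM : 0 < M) : LaurentSeries Λ →+* LaurentSeries Λ :=
  HahnSeries.embDomainRingHom (AddMonoidHom.mulLeft (M : ℤ))
    (fun a b h => by
      have h1 : (M : ℤ) * a = (M : ℤ) * b := h
      exact mul_left_cancel₀ (by exact_mod_cast hM.ne') h1)
    (fun a b => by
      change (M : ℤ) * a ≤ (M : ℤ) * b ↔ a ≤ b
      exact mul_le_mul_iff_right₀ (by exact_mod_cast hM))

variable {Λ' : Type} [Field Λ']

/-- The coefficientwise application of a homomorphism to Laurent series. -/
noncomputable def mapC (σ : Λ →+* Λ') : LaurentSeries Λ →+* LaurentSeries Λ' where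
  toFun f := HahnSeries.map f σ
  map_one' := by
    ext m
    rw [HahnSeries.map_coeff, HahnSeries.coeff_one, HahnSeries.coeff_one]
    split_ifs <;> simp
  map_mul' f g := by
    ext m
    have hs : ∀ h : LaurentSeries Λ, (HahnSeries.map h σ).support = h.support := by
      intro h
      ext m
      rw [HahnSeries.mem_support, HahnSeries.mem_support, HahnSeries.map_coeff]
      simp
    rw [HahnSeries.map_coeff, HahnSeries.coeff_mul, HahnSeries.coeff_mul, map_sum]
    refine Finset.sum_congr ?_ fun ij hij => ?_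
    · ext ij
      simp only [Finset.mem_antidiagonal, hs]
    · rw [HahnSeries.map_coeff, HahnSeries.map_coeff, map_mul]
  map_zero' := by
    ext m
    rw [HahnSeries.map_coeff]; simp
  map_add' f g := by
    ext m
    rw [HahnSeries.map_coeff, HahnSeries.coeff_add, HahnSeries.coeff_add, HahnSeries.map_coeff,
      HahnSeries.map_coeff, map_add]

theorem coeff_mapC (σ : Λ →+* Λ') (f : LaurentSeries Λ) (m : ℤ) :
    (mapC σ f).coeff m = σ (f.coeff m) := rfl

theorem C_laurent_injective : Function.Injective (HahnSeries.C : Λ →+* LaurentSeries Λ) :=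
  HahnSeries.C_injective

instance charZero_laurent [CharZero Λ] : CharZero (LaurentSeries Λ) :=
  charZero_of_injective_ringHom (f := (HahnSeries.C : Λ →+* LaurentSeries Λ)) HahnSeries.C_injective

/-- Evaluation of power series at a Laurent series of positive order. -/
noncomputable def hev (ξ : HahnSeries ℤ Λ) : PowerSeries Λ →+* HahnSeries ℤ Λ where
  toFun f := PowerSeries.heval ξ f
  map_one' := map_one (PowerSeries.heval ξ)
  map_mul' := map_mul (PowerSeries.heval ξ)
  map_zero' := map_zero (PowerSeries.heval ξ)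
  map_add' := map_add (PowerSeries.heval ξ)

open Classical in
/-- Substitution `f ↦ f(ξ)` for `ξ` of positive order (junk value otherwise). -/
noncomputable def sbL (ξ : LaurentSeries Λ) : LaurentSeries Λ →+* LaurentSeries Λ :=
  if h : Function.Injective (hev ξ) then
    IsFractionRing.lift (A := PowerSeries Λ) (K := LaurentSeries Λ) (L := LaurentSeries Λ)
      (g := hev ξ) h
  else RingHom.id _

end laurent

/-! ## Free group actions -/

/-- A free right action of `G` on `X`. -/
structure IsFree {G X : Type} [Group G] (act : X → G → X) : Prop where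
  one : ∀ x, act x 1 = x
  mul : ∀ x g h, act (act x g) h = act x (g * h)
  free : ∀ x g, act x g = x → g = 1

/-- The group of permutations of `X` commuting with the action of `G`. -/
def AutG {G X : Type} (act : X → G → X) : Subgroup (Equiv.Perm X) where
  carrier := {e | ∀ x g, e (act x g) = act (e x) g}
  mul_mem' := by
    intro a b ha hb x g
    rw [Equiv.Perm.mul_apply, Equiv.Perm.mul_apply, hb, ha]
  one_mem' := fun x g => rfl
  inv_mem' := by
    intro a ha x g
    apply a.injective
    rw [ha]
    change (a * a⁻¹) (act x g) = act ((a * a⁻¹) x) g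
    rw [mul_inv_cancel]
    rfl

/-- The wreath product of `G` with the symmetric group of degree `m`. -/
abbrev Wr (G : Type) [Group G] (m : ℕ) : Type := (Fin m → G) ⋊[mulAutArrow] Equiv.Perm (Fin m)

end Pool.Agent.Helper74_ALT
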