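import Pool.Agent.Helper74_ALT.Defs

/-!
# IGP, alternating version: statements of the modules on Laurent series and groups
-/

set_option autoImplicit false

open Polynomial

namespace Pool.Agent.Helper74_ALT

/-- LAUR: the toolbox for Laurent series. -/
structure LaurStmt : Prop where
  /-- the Euler derivation `X d/dX` -/
  theta : ∀ (Λ : Type) [Field Λ], ∃ D : Derivation ℤ (LaurentSeries Λ) (LaurentSeries Λ),
    ∀ (f : LaurentSeries Λ) (m : ℤ), (D f).coeff m = (m : Λ) * f.coeff m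
  sb_C : ∀ (Λ : Type) [Field Λ] (ξ : LaurentSeries Λ), 0 < ξ.order → ∀ a : Λ,
    sbL ξ (HahnSeries.C a) = HahnSeries.C a
  sb_X : ∀ (Λ : Type) [Field Λ] (ξ : LaurentSeries Λ), 0 < ξ.order →
    sbL ξ (HahnSeries.single 1 1) = ξ
  sb_order : ∀ (Λ : Type) [Field Λ] (ξ : LaurentSeries Λ), 0 < ξ.order →
    ∀ f : LaurentSeries Λ, (sbL ξ f).order = f.order * ξ.order
  sb_lead : ∀ (Λ : Type) [Field Λ] (ξ : LaurentSeries Λ), 0 < ξ.order →
    ∀ f : LaurentSeries Λ, (sbL ξ f).leadingCoeff = f.leadingCoeff * ξ.leadingCoeff ^ f.order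
  /-- the constant coefficient is kept by substitutions -/
  sb_coeff : ∀ (Λ : Type) [Field Λ] (ξ : LaurentSeries Λ), 0 < ξ.order →
    ∀ f : LaurentSeries Λ, 0 ≤ f.order → (sbL ξ f).coeff 0 = f.coeff 0
  /-- injective homomorphisms respecting the order (`scl ζ`, `powX M`, `mapC σ`, `sbL η`)
  commute with substitution -/
  sb_scl : ∀ (Λ : Type) [Field Λ] (ξ : LaurentSeries Λ), 0 < ξ.order → ∀ (ζ : Λˣ),
    (scl ζ).comp (sbL ξ) = sbL (scl ζ ξ)
  sb_powX : ∀ (Λ : Type) [Field Λ] (ξ : LaurentSeries Λ), 0 < ξ.order → ∀ (M : ℕ) (hM : 0 < M),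
    (powX M hM).comp (sbL ξ) = sbL (powX M hM ξ)
  sb_mapC : ∀ (Λ Λ' : Type) [Field Λ] [Field Λ'] (ξ : LaurentSeries Λ), 0 < ξ.order →
    ∀ σ : Λ →+* Λ', (mapC σ).comp (sbL ξ) = (sbL (mapC σ ξ)).comp (mapC σ)
  sb_sb : ∀ (Λ : Type) [Field Λ] (ξ η : LaurentSeries Λ), 0 < ξ.order → 0 < η.order →
    (sbL η).comp (sbL ξ) = sbL (sbL η ξ)
  /-- roots of series with divisible order -/
  root : ∀ (Λ : Type) [Field Λ] [CharZero Λ] [IsAlgClosed Λ] (f : LaurentSeries Λ) (e : ℕ),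
    0 < e → f ≠ 0 → (e : ℤ) ∣ f.order → ∃ w, w ^ e = f
  /-- LOC: a nonconstant `g` and the leading term determine `ξ` from `g(ξ)` -/
  loc : ∀ (Λ : Type) [Field Λ] [CharZero Λ] [IsAlgClosed Λ] (g ξ ξ' : LaurentSeries Λ),
    0 < ξ.order → ξ.order = ξ'.order → ξ.leadingCoeff = ξ'.leadingCoeff →
    (∀ a : Λ, g ≠ HahnSeries.C a) → sbL ξ g = sbL ξ' g → ξ = ξ'
  /-- EX: solving `h(ξ) = X ^ (e M)` -/
  ex : ∀ (Λ : Type) [Field Λ] [CharZero Λ] [IsAlgClosed Λ] (h : LaurentSeries Λ) (M : ℤ) (α : Λ),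
    h ≠ 0 → h.order ≠ 0 → 0 < M → h.leadingCoeff * α ^ h.order = 1 →
    ∃ ξ : LaurentSeries Λ, ξ.order = M ∧ ξ.leadingCoeff = α ∧
      sbL ξ h = HahnSeries.single (h.order * M) 1

/-- NP: Newton-Puiseux. -/
def NpStmt : Prop := ∀ (Λ : Type) [Field Λ] [CharZero Λ] [IsAlgClosed Λ] (E L : Type) [Field E]
  [Field L] [Algebra E L] [FiniteDimensional E L] (j₀ : E →+* LaurentSeries Λ),
  ∃ (M : ℕ) (hM : 0 < M) (j : L →+* LaurentSeries Λ), ∀ z : E,
    j (algebraMap E L z) = powX M hM (j₀ z)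

/-- TRIV: the group of `G`-automorphisms of a free `G`-set with `m` orbits. -/
def TrivStmt : Prop := ∀ (G X : Type) [Group G] [Finite G] [Finite X] (act : X → G → X) (m : ℕ),
  IsFree act → Nat.card X = m * Nat.card G → Nonempty (AutG act ≃* Wr G m)

/-- CRIT: odd cycles without `G`-part. -/
def CritStmt : Prop := ∀ (G X : Type) [Group G] [Finite G] [Finite X] (act : X → G → X),
  IsFree act → ∀ γ : AutG act,
    (∀ (x : X) (q : ℕ) (g : G), (γ.1 ^ q) x = act x g → g = 1) →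
    (∀ x : X, ∃ e : ℕ, Odd e ∧ (γ.1 ^ e) x = x) → γ ∈ commutator (AutG act)

/-- PERM: permutations commuting with the full symmetric group of degree `6 |G|`. -/
def PermStmt : Prop := ∀ (G Z : Type) [Group G] [Finite G] [Finite Z] (k : ℕ)
  (ρ : G →* Equiv.Perm (Fin k)) (actK : Z → Equiv.Perm (Fin k) → Z),
  k = 6 * Nat.card G → (∀ g i, ρ g i = i → g = 1) → IsFree actK →
  ∀ γ : AutG (fun (z : Z) (g : G) => actK z (ρ g)),
    (∀ z π, γ.1 (actK z π) = actK (γ.1 z) π) →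
    γ ∈ commutator (AutG (fun (z : Z) (g : G) => actK z (ρ g)))

/-- GRP: the subgroup of the wreath product generated by the monodromy. -/
def GrpStmt : Prop := ∀ (G X H : Type) [Group G] [Finite G] [Finite X] [Group H]
  (act : X → G → X) (θ : H →* AutG act) (m C : ℕ),
  IsFree act → Nat.card X = m * Nat.card G → Function.Injective θ →
  (∀ x₁ x₂ y₁ y₂ : X, (∀ g, x₂ ≠ act x₁ g) → (∀ g, y₂ ≠ act y₁ g) →
    ∃ h : H, (θ h).1 x₁ = y₁ ∧ (θ h).1 x₂ = y₂) →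
  (∃ h : H, (∃ x, ∀ g, (θ h).1 x ≠ act x g) ∧ Nat.card {x : X // (θ h).1 x ≠ x} ≤ C) →
  (∀ h : H, θ h ∈ commutator (AutG act)) →
  C ^ 2 + 2 ≤ m → Nat.card G ^ 2 + 8 ≤ m → θ.range = commutator (AutG act)

end Pool.Agent.Helper74_ALT
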